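import Pool.Agent.Helper44.QB.Main
import Pool.Agent.Helper44.QB.Pure

/-!
# Quillen's conjecture for graded rings of characteristic zero: a gap theorem

`R` a positively graded algebra over a field `k` of characteristic zero with
`dim R - depth R ≤ μ`, `B` a minimal bigraded DG algebra resolution over `R`, free as a graded
commutative algebra on finitely many variables. If there is a variable of degree `≥ 3` then there
is a variable of degree between `3` and `μ + 2` (between `3` and `μ + 1` if the degree is odd), or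
there is a variable `v` of odd degree `≥ 5` such that `d v` is not in `𝔪 B + (odd variables) B` and
every `j` with `2 ⌊(deg v - 1) / 4⌋ ≤ j ≤ deg v` is the degree of a variable. If `μ ≤ 1` then the
first case is impossible.
-/

set_option autoImplicit false

open Pool.Agent.Helper44.QB in
theorem Pool.Agent.Results.MP_6cd5f1_al.GapTheorem.result {k R : Type} [Field k] [CharZero k]
    [CommRing R] [Algebra k R] [IsNoetherianRing R] (𝒜 : ℕ → Submodule k R) [GradedAlgebra 𝒜]
    {μ : ℕ} (hR : DimDepth 𝒜 μ) {a b : ℕ} (deg wt : Fin a ⊕ Fin b → ℕ)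
    (d : FreeG R a b → FreeG R a b) (hd : IsGModel 𝒜 deg wt d) (h3 : ∃ g, 3 ≤ deg g) :
    (∃ g, 3 ≤ deg g ∧ deg g ≤ μ + 2 ∧ (Odd (deg g) → deg g ≤ μ + 1)) ∨
    ∃ i, 5 ≤ deg (Sum.inl i) ∧
      (∀ j, 2 * ((deg (Sum.inl i) - 1) / 4) ≤ j → j ≤ deg (Sum.inl i) → ∃ g, deg g = j) ∧
      d (var R a b (Sum.inl i)) ∉ @oddIdeal k R (FreeG R a b) _ _ _ (fRing R a b) (fAlg R a b)
        a b 𝒜 (var R a b) := by
  classical
  obtain ⟨h0, D, θ, e, η, e', hθ, hη, hreg, hfin⟩ := hR
  have hnt : Nontrivial R := by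
    by_contra h
    rw [not_nontrivial_iff_subsingleton] at h
    exact hreg.top_ne_smul (Subsingleton.elim _ _)
  let _ : Algebra ℚ R := Algebra.compHom R (algebraMap ℚ k)
  by_contra hcon
  rw [not_or] at hcon
  obtain ⟨hc1, hc2⟩ := hcon
  obtain ⟨g0, hg0⟩ := h3
  obtain ⟨v, hv, hmin⟩ := (Finset.univ.filter fun g => 3 ≤ deg g).exists_min_image deg
    ⟨g0, Finset.mem_filter.2 ⟨Finset.mem_univ _, hg0⟩⟩
  have hv3 : 3 ≤ deg v := (Finset.mem_filter.1 hv).2
  have h := main h0 hd θ η e e' hθ hη hreg.toIsWeaklyRegular hfin (pure_of_gap hd (by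
      intro i h5 hj
      by_contra hn
      refine hc2 ⟨i, h5, fun j h1 h2 => ?_, hn⟩
      rcases h2.lt_or_eq with h | h
      · exact hj j h1 h
      · exact ⟨_, h.symm⟩)) v hv3
    (fun g hg => hmin g (Finset.mem_filter.2 ⟨Finset.mem_univ _, hg⟩))
  exact hc1 ⟨v, hv3, h.1, h.2⟩
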