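import Pool.Agent.Helper44.QA.Main

/-!
# Quillen's conjecture on the vanishing of André-Quillen homology: the case `n₀ = 4` over `ℚ`

`R` a noetherian local ring containing `ℚ`, `R[x, X, Y]` a DG algebra, free as a graded commutative
algebra on variables `x`, `X`, `Y` of degrees `1`, `2`, `3`, which resolves `S = R / (d x)`: the
linear part `Y → X` of the differential is injective modulo the maximal ideal.
-/

open Pool.Agent.Helper44.QA in
theorem Pool.Agent.Results.MP_6cd5f1_al.VanishFromFour.result {R : Type} [CommRing R]
    [IsLocalRing R] [IsNoetherianRing R] [Algebra ℚ R] {a b c : ℕ}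
    (d : FreeGC R a b c → FreeGC R a b c) (r : Fin c → Fin b → R) (hd : IsModel d r)
    (v : Fin c → IsLocalRing.ResidueField R)
    (hv : ∀ j, ∑ k, v k * IsLocalRing.residue R (r k j) = 0) : v = 0 :=
  main d r hd v hv
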